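import Mathlib

/-!
# Quantitative analytic continuation in one variable

`F n` is the `n`-th derivative of `F 0`; if `|F n| ≤ A B ^ n n!` on an interval and `F 0` is tiny on
a part of the interval then it is small on the whole interval.
-/

set_option autoImplicit false

namespace Pool.Agent.Q128.CC

open Set

/-- the sequence of derivatives of the function `F 0` -/
def Chain (F : ℕ → ℝ → ℝ) : Prop := ∀ n t, HasDerivAt (F n) (F (n + 1) t) t

theorem Chain.shift {F : ℕ → ℝ → ℝ} (h : Chain F) : Chain (fun n => F (n + 1)) := fun n t =>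
  h (n + 1) t

/-- two points of an interval -/
theorem two_pts {G G' G'' : ℝ → ℝ} (h1 : ∀ t, HasDerivAt G (G' t) t)
    (h2 : ∀ t, HasDerivAt G' (G'' t) t) {p q M δ η : ℝ} (hη : 0 < η) (hpq : q = p + η)
    (hM : ∀ t ∈ Icc p q, |G'' t| ≤ M) (hp : |G p| ≤ δ) (hq : |G q| ≤ δ) :
    ∀ t ∈ Icc p q, |G' t| ≤ 2 * δ / η + M * η := by
  have hlt : p < q := by linarith
  obtain ⟨ξ, hξ, hξe⟩ := exists_hasDerivAt_eq_slope G G' hlt
    (fun t _ => (h1 t).continuousAt.continuousWithinAt) (fun t _ => h1 t)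
  have h3 : |G' ξ| ≤ 2 * δ / η := by
    rw [hξe, abs_div, show q - p = η by linarith, abs_of_pos hη]
    refine div_le_div_of_nonneg_right ?_ hη.le
    have := abs_sub (G q) (G p)
    linarith
  intro t ht
  have h4 : ‖G' t - G' ξ‖ ≤ M * ‖t - ξ‖ :=
    (convex_Icc p q).norm_image_sub_le_of_norm_hasDerivWithin_le
      (fun x _ => (h2 x).hasDerivWithinAt) (fun x hx => hM x hx) ⟨hξ.1.le, hξ.2.le⟩ ht
  rw [Real.norm_eq_abs, Real.norm_eq_abs] at h4
  have hM0 : 0 ≤ M := (abs_nonneg _).trans (hM p ⟨le_refl _, hlt.le⟩)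
  have h5 : |t - ξ| ≤ η := by
    rw [abs_le]
    constructor <;> linarith [ht.1, ht.2, hξ.1, hξ.2]
  have h6 : M * |t - ξ| ≤ M * η := mul_le_mul_of_nonneg_left h5 hM0
  have h7 := abs_sub_abs_le_abs_sub (G' t) (G' ξ)
  linarith

/-- the derivative of a tiny function with bounded second derivative is small -/
theorem landau (M ε l : ℝ) (hM : 0 < M) (hε : 0 < ε) (hl : 0 < l) :
    ∃ δ : ℝ, 0 < δ ∧ ∀ (G G' G'' : ℝ → ℝ) (a : ℝ), (∀ t, HasDerivAt G (G' t) t) →
      (∀ t, HasDerivAt G' (G'' t) t) → (∀ t ∈ Icc a (a + l), |G'' t| ≤ M) →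
      (∀ t ∈ Icc a (a + l), |G t| ≤ δ) → ∀ t ∈ Icc a (a + l), |G' t| ≤ ε := by
  obtain ⟨η, hη⟩ : ∃ η, η = min (l / 2) (ε / (2 * M)) := ⟨_, rfl⟩
  have hη0 : 0 < η := by
    rw [hη]
    exact lt_min (by linarith) (by positivity)
  have hηl : η ≤ l / 2 := by rw [hη]; exact min_le_left _ _
  have hηM : M * η ≤ ε / 2 := by
    have h1 : η ≤ ε / (2 * M) := by rw [hη]; exact min_le_right _ _
    calc M * η ≤ M * (ε / (2 * M)) := mul_le_mul_of_nonneg_left h1 hM.le
      _ = ε / 2 := by field_simp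
  refine ⟨ε * η / 4, by positivity, fun G G' G'' a h1 h2 h3 h4 t ht => ?_⟩
  have h5 : 2 * (ε * η / 4) / η = ε / 2 := by
    field_simp
    ring
  rcases le_total t (a + l / 2) with h | h
  · have h6 := two_pts h1 h2 (p := t) (q := t + η) (M := M) (δ := ε * η / 4) hη0 rfl
      (fun s hs => h3 s ⟨by linarith [ht.1, hs.1], by linarith [hs.2]⟩) (h4 t ht)
      (h4 (t + η) ⟨by linarith [ht.1], by linarith⟩) t ⟨le_refl _, by linarith⟩
    rw [h5] at h6
    linarith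
  · have h6 := two_pts h1 h2 (p := t - η) (q := t) (M := M) (δ := ε * η / 4) hη0 (by ring)
      (fun s hs => h3 s ⟨by linarith [hs.1], by linarith [ht.2, hs.2]⟩)
      (h4 (t - η) ⟨by linarith, by linarith [ht.2]⟩) (h4 t ht) t ⟨by linarith, le_refl _⟩
    rw [h5] at h6
    linarith

/-- all the derivatives are small -/
theorem derivs_small (A B l : ℝ) (hA : 0 < A) (hB : 0 < B) (hl : 0 < l) (k : ℕ) :
    ∀ ε : ℝ, 0 < ε → ∃ β : ℝ, 0 < β ∧ ∀ (F : ℕ → ℝ → ℝ) (a : ℝ), Chain F →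
      (∀ n, ∀ t ∈ Icc a (a + l), |F n t| ≤ A * B ^ n * n.factorial) →
      (∀ t ∈ Icc a (a + l), |F 0 t| ≤ β) → ∀ t ∈ Icc a (a + l), |F k t| ≤ ε := by
  induction k with
  | zero => exact fun ε hε => ⟨ε, hε, fun F a _ _ h => h⟩
  | succ k ih =>
    intro ε hε
    obtain ⟨δ, hδ, hL⟩ := landau (A * B ^ (k + 2) * (k + 2).factorial) ε l (by positivity) hε hl
    obtain ⟨β, hβ, h⟩ := ih δ hδ
    exact ⟨β, hβ, fun F a hF h1 h2 => hL (F k) (F (k + 1)) (F (k + 2)) a (hF k) (hF (k + 1))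
      (h1 (k + 2)) (h F a hF h1 h2)⟩

theorem derivs_small_all (A B l : ℝ) (hA : 0 < A) (hB : 0 < B) (hl : 0 < l) (N : ℕ) (ε : ℝ)
    (hε : 0 < ε) : ∃ β : ℝ, 0 < β ∧ ∀ (F : ℕ → ℝ → ℝ) (a : ℝ), Chain F →
      (∀ n, ∀ t ∈ Icc a (a + l), |F n t| ≤ A * B ^ n * n.factorial) →
      (∀ t ∈ Icc a (a + l), |F 0 t| ≤ β) → ∀ k ≤ N, ∀ t ∈ Icc a (a + l), |F k t| ≤ ε := by
  induction N with
  | zero =>
    refine ⟨ε, hε, fun F a _ _ h k hk => ?_⟩
    rw [Nat.le_zero.1 hk]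
    exact h
  | succ N ih =>
    obtain ⟨β, hβ, h⟩ := ih
    obtain ⟨β', hβ', h'⟩ := derivs_small A B l hA hB hl (N + 1) ε hε
    refine ⟨min β β', lt_min hβ hβ', fun F a hF h1 h2 k hk t ht => ?_⟩
    rcases Nat.lt_or_ge k (N + 1) with h3 | h3
    · exact h F a hF h1 (fun s hs => (h2 s hs).trans (min_le_left _ _)) k (by omega) t ht
    · have : k = N + 1 := by omega
      rw [this]
      exact h' F a hF h1 (fun s hs => (h2 s hs).trans (min_le_right _ _)) t ht

/-- the majorant in Taylor's formula -/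
noncomputable def maj (c M : ℝ) (N : ℕ) (x : ℝ) : ℝ :=
  c * ∑ k ∈ Finset.range (N + 1), x ^ k / k.factorial + M * x ^ (N + 1) / (N + 1).factorial

theorem maj_deriv (c M : ℝ) (N : ℕ) (x : ℝ) : HasDerivAt (maj c M (N + 1)) (maj c M N x) x := by
  unfold maj
  refine HasDerivAt.add ?_ ?_
  · refine HasDerivAt.const_mul c ?_
    have h1 : ∀ k ∈ Finset.range (N + 2), HasDerivAt (fun x : ℝ => x ^ k / k.factorial)
        (k * x ^ (k - 1) / k.factorial) x := fun k _ => (hasDerivAt_pow k x).div_const _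
    have h2 := HasDerivAt.fun_sum h1
    have h3 : ∑ k ∈ Finset.range (N + 2), (k : ℝ) * x ^ (k - 1) / k.factorial =
        ∑ k ∈ Finset.range (N + 1), x ^ k / k.factorial := by
      rw [Finset.sum_range_succ']
      simp only [Nat.cast_zero, zero_mul, zero_div, add_zero, Nat.add_sub_cancel]
      refine Finset.sum_congr rfl fun k _ => ?_
      rw [Nat.factorial_succ]
      push_cast
      field_simp
    rw [h3] at h2
    exact h2
  · have h1 : HasDerivAt (fun x : ℝ => M * x ^ (N + 1 + 1) / (N + 1 + 1).factorial)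
        (M * (((N + 1 + 1 : ℕ) : ℝ) * x ^ (N + 1)) / (N + 1 + 1).factorial) x :=
      ((hasDerivAt_pow (N + 1 + 1) x).const_mul M).div_const _
    have h2 : M * (((N + 1 + 1 : ℕ) : ℝ) * x ^ (N + 1)) / (N + 1 + 1).factorial =
        M * x ^ (N + 1) / (N + 1).factorial := by
      rw [Nat.factorial_succ (N + 1)]
      push_cast
      field_simp
    rw [h2] at h1
    exact h1

/-- Taylor's formula as an inequality -/
theorem taylor_bd (N : ℕ) : ∀ (F : ℕ → ℝ → ℝ) (a b c M : ℝ), Chain F → 0 ≤ c → 0 ≤ M →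
    (∀ k ≤ N, |F k a| ≤ c) → (∀ t ∈ Icc a b, |F (N + 1) t| ≤ M) →
    ∀ t ∈ Icc a b, |F 0 t| ≤ maj c M N (t - a) := by
  induction N with
  | zero =>
    intro F a b c M hF hc hM h1 h2 t ht
    have h3 : ‖F 0 t - F 0 a‖ ≤ M * ‖t - a‖ :=
      (convex_Icc a b).norm_image_sub_le_of_norm_hasDerivWithin_le
        (fun x _ => (hF 0 x).hasDerivWithinAt) (fun x hx => h2 x hx)
        ⟨le_refl _, ht.1.trans ht.2⟩ ht
    rw [Real.norm_eq_abs, Real.norm_eq_abs, abs_of_nonneg (sub_nonneg.2 ht.1)] at h3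
    have h4 := abs_sub_abs_le_abs_sub (F 0 t) (F 0 a)
    have h5 := h1 0 le_rfl
    unfold maj
    simp only [zero_add, Finset.sum_range_one, pow_zero, Nat.factorial_zero, Nat.cast_one, pow_one,
      Nat.factorial_one, div_one, mul_one]
    linarith
  | succ N ih =>
    intro F a b c M hF hc hM h1 h2 t ht
    have h3 := ih (fun n => F (n + 1)) a b c M hF.shift hc hM
      (fun k hk => h1 (k + 1) (by omega)) h2
    have h4 : ∀ x ∈ Icc a b, ‖F 0 x‖ ≤ maj c M (N + 1) (x - a) := by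
      refine image_norm_le_of_norm_deriv_right_le_deriv_boundary (f' := F 1)
        (B' := fun x => maj c M N (x - a))
        (fun x _ => (hF 0 x).continuousAt.continuousWithinAt)
        (fun x _ => (hF 0 x).hasDerivWithinAt) ?_ ?_ ?_
      · rw [sub_self]
        have h5 := h1 0 (by omega)
        unfold maj
        rw [Finset.sum_range_succ']
        simpa using h5
      · intro x
        exact (maj_deriv c M N (x - a)).comp_sub_const x a
      · intro x hx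
        exact h3 x ⟨hx.1, hx.2.le⟩
    exact h4 t ht

/-- one step of the continuation -/
theorem step (A B l l' : ℝ) (hA : 0 < A) (hB : 0 < B) (hl : 0 < l) (hl' : 0 < l')
    (hBl : B * l' ≤ 1 / 2) (ε : ℝ) (hε : 0 < ε) :
    ∃ β : ℝ, 0 < β ∧ ∀ (F : ℕ → ℝ → ℝ) (a : ℝ), Chain F →
      (∀ n, ∀ t ∈ Icc a (a + l + l'), |F n t| ≤ A * B ^ n * n.factorial) →
      (∀ t ∈ Icc a (a + l), |F 0 t| ≤ β) → ∀ t ∈ Icc (a + l) (a + l + l'), |F 0 t| ≤ ε := by
  obtain ⟨N, hN⟩ : ∃ N : ℕ, A * (1 / 2) ^ (N + 1) ≤ ε / 2 := by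
    obtain ⟨N, hN⟩ := exists_pow_lt_of_lt_one (show (0 : ℝ) < ε / 2 / A by positivity)
      (show (1 / 2 : ℝ) < 1 by norm_num)
    refine ⟨N, ?_⟩
    have h1 : ((1 : ℝ) / 2) ^ (N + 1) ≤ (1 / 2) ^ N :=
      pow_le_pow_of_le_one (by norm_num) (by norm_num) (Nat.le_succ N)
    rw [lt_div_iff₀ hA] at hN
    nlinarith
  obtain ⟨S, hS⟩ : ∃ S : ℝ, S = ∑ k ∈ Finset.range (N + 1), l' ^ k / k.factorial := ⟨_, rfl⟩
  have hS0 : 0 < S := by
    rw [hS]
    exact Finset.sum_pos (fun k _ => by positivity) ⟨0, by simp⟩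
  obtain ⟨β, hβ, h⟩ := derivs_small_all A B l hA hB hl N (ε / 2 / S) (by positivity)
  refine ⟨β, hβ, fun F a hF h1 h2 t ht => ?_⟩
  have h3 := h F a hF (fun n s hs => h1 n s ⟨hs.1, by linarith [hs.2]⟩) h2
  have h4 := taylor_bd N F (a + l) (a + l + l') (ε / 2 / S)
    (A * B ^ (N + 1) * (N + 1).factorial) hF (by positivity) (by positivity)
    (fun k hk => h3 k hk (a + l) ⟨by linarith, le_refl _⟩)
    (fun s hs => h1 (N + 1) s ⟨by linarith [hs.1], hs.2⟩) t ht
  refine h4.trans ?_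
  unfold maj
  have hx0 : 0 ≤ t - (a + l) := by linarith [ht.1]
  have hx1 : t - (a + l) ≤ l' := by linarith [ht.2]
  have h5 : ε / 2 / S * ∑ k ∈ Finset.range (N + 1), (t - (a + l)) ^ k / k.factorial ≤ ε / 2 := by
    calc ε / 2 / S * ∑ k ∈ Finset.range (N + 1), (t - (a + l)) ^ k / k.factorial
        ≤ ε / 2 / S * S := by
          refine mul_le_mul_of_nonneg_left ?_ (by positivity)
          rw [hS]
          refine Finset.sum_le_sum fun k _ => ?_
          exact div_le_div_of_nonneg_right (pow_le_pow_left₀ hx0 hx1 k) (by positivity)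
      _ = ε / 2 := by field_simp
  have h6 : A * B ^ (N + 1) * (N + 1).factorial * (t - (a + l)) ^ (N + 1) / (N + 1).factorial ≤
      ε / 2 := by
    have h7 : A * B ^ (N + 1) * (N + 1).factorial * (t - (a + l)) ^ (N + 1) /
        (N + 1).factorial = A * (B * (t - (a + l))) ^ (N + 1) := by
      rw [mul_pow]
      field_simp
    rw [h7]
    refine le_trans (mul_le_mul_of_nonneg_left ?_ hA.le) hN
    exact pow_le_pow_left₀ (by positivity)
      ((mul_le_mul_of_nonneg_left hx1 hB.le).trans hBl) _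
  linarith

/-- several steps -/
theorem steps (A B l l' : ℝ) (hA : 0 < A) (hB : 0 < B) (hl : 0 < l) (hl' : 0 < l')
    (hBl : B * l' ≤ 1 / 2) (m : ℕ) : ∀ ε : ℝ, 0 < ε →
    ∃ β : ℝ, 0 < β ∧ ∀ (F : ℕ → ℝ → ℝ) (a : ℝ), Chain F →
      (∀ n, ∀ t ∈ Icc a (a + l + m * l'), |F n t| ≤ A * B ^ n * n.factorial) →
      (∀ t ∈ Icc a (a + l), |F 0 t| ≤ β) → ∀ t ∈ Icc a (a + l + m * l'), |F 0 t| ≤ ε := by
  induction m with
  | zero =>
    intro ε hε
    refine ⟨ε, hε, fun F a _ _ h t ht => h t ⟨ht.1, ?_⟩⟩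
    have := ht.2
    simp only [Nat.cast_zero, zero_mul, add_zero] at this
    exact this
  | succ m ih =>
    intro ε hε
    obtain ⟨β₁, hβ₁, h1⟩ := step A B l l' hA hB hl hl' hBl ε hε
    obtain ⟨β, hβ, h2⟩ := ih (min β₁ ε) (lt_min hβ₁ hε)
    refine ⟨β, hβ, fun F a hF hb hs t ht => ?_⟩
    have hm : ((m + 1 : ℕ) : ℝ) * l' = m * l' + l' := by
      push_cast
      ring
    rw [hm] at hb ht
    have hm0 : 0 ≤ (m : ℝ) * l' := by positivity
    have h3 := h2 F a hF (fun n s hs => hb n s ⟨hs.1, by linarith [hs.2]⟩) hs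
    rcases le_total t (a + l + m * l') with h4 | h4
    · exact (h3 t ⟨ht.1, h4⟩).trans (min_le_right _ _)
    · refine h1 F (a + m * l') hF (fun n s hs => hb n s ⟨by linarith [hs.1], ?_⟩)
        (fun s hs => (h3 s ⟨by linarith [hs.1], ?_⟩).trans (min_le_left _ _)) t ⟨?_, ?_⟩
      · linarith [hs.2]
      · linarith [hs.2]
      · linarith
      · linarith [ht.2]

/-- **Quantitative continuation.** -/
theorem cont (A B l L : ℝ) (hA : 0 < A) (hB : 0 < B) (hl : 0 < l) (hL : l < L) (ε : ℝ)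
    (hε : 0 < ε) : ∃ β : ℝ, 0 < β ∧ ∀ (F : ℕ → ℝ → ℝ), Chain F →
      (∀ n, ∀ t ∈ Icc 0 L, |F n t| ≤ A * B ^ n * n.factorial) →
      (∀ t ∈ Icc 0 l, |F 0 t| ≤ β) → ∀ t ∈ Icc 0 L, |F 0 t| ≤ ε := by
  obtain ⟨m, hm⟩ := exists_nat_gt (2 * B * (L - l))
  have hm0 : (0 : ℝ) < m := lt_trans (mul_pos (by positivity) (by linarith)) hm
  obtain ⟨l', hl'⟩ : ∃ l', l' = (L - l) / m := ⟨_, rfl⟩
  have hl'0 : 0 < l' := by
    rw [hl']
    exact div_pos (by linarith) hm0
  have hml : (m : ℝ) * l' = L - l := by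
    rw [hl']
    field_simp
  have hBl : B * l' ≤ 1 / 2 := by
    have h1 : m * (B * l') ≤ m * (1 / 2) := by
      have : m * (B * l') = B * (m * l') := by ring
      rw [this, hml]
      linarith
    exact le_of_mul_le_mul_left h1 hm0
  obtain ⟨β, hβ, h⟩ := steps A B l l' hA hB hl hl'0 hBl m ε hε
  refine ⟨β, hβ, fun F hF h1 h2 t ht => ?_⟩
  have e : (0 : ℝ) + l + m * l' = L := by linarith
  have h3 := h F 0 hF
  rw [e, zero_add] at h3
  exact h3 h1 h2 t ht

end Pool.Agent.Q128.CC
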