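import Pool.Agent.Q85.CC.Defs
import Pool.Agent.Q128.CC.One

/-!
# Quantitative analytic continuation in a disc
-/

set_option autoImplicit false

namespace Pool.Agent.Q128.CC

open MeasureTheory Set Metric
open scoped ContDiff
open H459R3.NS Pool.Agent.W268.NS Pool.Agent.Q67.VD Pool.Agent.Q85.CC

/-! ## Derivatives along a line -/

/-- the derivative in the direction `d` -/
noncomputable def dd (d : V) (f : V → ℝ) (y : V) : ℝ := ∑ i, d i * pd i f y

theorem fderiv_dd (d : V) (f : V → ℝ) (y : V) : fderiv ℝ f y d = dd d f y := by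
  unfold dd pd
  have h : d = ∑ i, d i • (Pi.single i (1 : ℝ) : V) := by
    funext j
    simp [Finset.sum_apply, Pi.single_apply]
  conv_lhs => rw [h]
  rw [map_sum]
  refine Finset.sum_congr rfl fun i _ => ?_
  rw [map_smul, smul_eq_mul]

theorem pd_smooth' {f : V → ℝ} (hf : ContDiff ℝ ∞ f) (i : Fin 3) : ContDiff ℝ ∞ (pd i f) := by
  unfold pd
  exact (hf.fderiv_right (m := ∞) (by norm_cast)).clm_apply contDiff_const

theorem dd_smooth {f : V → ℝ} (hf : ContDiff ℝ ∞ f) (d : V) : ContDiff ℝ ∞ (dd d f) := by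
  unfold dd
  exact ContDiff.sum fun i _ => contDiff_const.mul (pd_smooth' hf i)

theorem dd_iter_smooth {f : V → ℝ} (hf : ContDiff ℝ ∞ f) (d : V) (n : ℕ) :
    ContDiff ℝ ∞ ((dd d)^[n] f) := by
  induction n with
  | zero => exact hf
  | succ n ih =>
    rw [Function.iterate_succ_apply']
    exact dd_smooth ih d

theorem dd_lin (d : V) (g : Fin 3 → V → ℝ) (hg : ∀ i, ContDiff ℝ ∞ (g i)) :
    dd d (fun y => ∑ i, d i * g i y) = fun y => ∑ i, d i * dd d (g i) y := by
  funext y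
  rw [← fderiv_dd]
  have h1 : HasFDerivAt (fun y => ∑ i, d i * g i y) (∑ i, d i • fderiv ℝ (g i) y) y := by
    refine HasFDerivAt.fun_sum fun i _ => ?_
    exact (((hg i).differentiable (by simp)) y).hasFDerivAt.const_mul (d i)
  rw [h1.fderiv, ContinuousLinearMap.sum_apply]
  refine Finset.sum_congr rfl fun i _ => ?_
  rw [ContinuousLinearMap.smul_apply, fderiv_dd, smul_eq_mul]

theorem dd_iter_lin (d : V) (n : ℕ) : ∀ (g : Fin 3 → V → ℝ), (∀ i, ContDiff ℝ ∞ (g i)) →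
    (dd d)^[n] (fun y => ∑ i, d i * g i y) = fun y => ∑ i, d i * (dd d)^[n] (g i) y := by
  induction n with
  | zero => exact fun g _ => rfl
  | succ n ih =>
    intro g hg
    rw [Function.iterate_succ_apply, dd_lin d g hg, ih (fun i => dd d (g i))
      fun i => dd_smooth (hg i) d]
    rfl

theorem dd_iter_sq (d : V) (hd : d ⬝ᵥ d = 1) (n : ℕ) : ∀ (f : V → ℝ), ContDiff ℝ ∞ f → ∀ y,
    ((dd d)^[n] f y) ^ 2 ≤ SQ n f y := by
  induction n with
  | zero => exact fun f _ y => le_refl _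
  | succ n ih =>
    intro f hf y
    have h1 : (dd d)^[n + 1] f y = ∑ i, d i * (dd d)^[n] (pd i f) y := by
      rw [Function.iterate_succ_apply]
      exact congrFun (dd_iter_lin d n (fun i => pd i f) fun i => pd_smooth' hf i) y
    rw [h1]
    refine (Finset.sum_mul_sq_le_sq_mul_sq Finset.univ (fun i => d i)
      (fun i => (dd d)^[n] (pd i f) y)).trans ?_
    have h2 : ∑ i, d i ^ 2 = 1 := by
      rw [← hd]
      unfold dotProduct
      exact Finset.sum_congr rfl fun i _ => sq (d i)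
    rw [h2, one_mul]
    exact Finset.sum_le_sum fun i _ => ih (pd i f) (pd_smooth' hf i) y

theorem line_deriv {f : V → ℝ} (hf : ContDiff ℝ ∞ f) (p d : V) (r t : ℝ) :
    HasDerivAt (fun t : ℝ => f (p + (r * t) • d)) (r * dd d f (p + (r * t) • d)) t := by
  have h1 : HasDerivAt (fun t : ℝ => p + (r * t) • d) (r • d) t := by
    have h2 : HasDerivAt (fun t : ℝ => r * t) r t := by
      simpa using (hasDerivAt_id t).const_mul r
    exact (h2.smul_const d).const_add p
  have h3 : HasFDerivAt f (fderiv ℝ f (p + (r * t) • d)) (p + (r * t) • d) :=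
    ((hf.differentiable (by simp)) _).hasFDerivAt
  have h4 := h3.comp_hasDerivAt t h1
  have h5 : (fderiv ℝ f (p + (r * t) • d)) (r • d) = r * dd d f (p + (r * t) • d) := by
    rw [map_smul, fderiv_dd, smul_eq_mul]
  rw [h5] at h4
  exact h4

/-- the sequence of derivatives along the line, scaled -/
noncomputable def ch (f : V → ℝ) (p d : V) (r : ℝ) (n : ℕ) (t : ℝ) : ℝ :=
  r ^ (n + 2) * (dd d)^[n] f (p + (r * t) • d)

theorem ch_chain {f : V → ℝ} (hf : ContDiff ℝ ∞ f) (p d : V) (r : ℝ) : Chain (ch f p d r) := by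
  intro n t
  unfold ch
  have h1 := (line_deriv (dd_iter_smooth hf d n) p d r t).const_mul (r ^ (n + 2))
  have h2 : r ^ (n + 2) * (r * dd d ((dd d)^[n] f) (p + (r * t) • d)) =
      r ^ (n + 1 + 2) * (dd d)^[n + 1] f (p + (r * t) • d) := by
    rw [Function.iterate_succ_apply']
    ring
  rw [h2] at h1
  exact h1

/-! ## The geometry -/

theorem dot3 (a b : V) : a ⬝ᵥ b = a 0 * b 0 + a 1 * b 1 + a 2 * b 2 := by
  unfold dotProduct
  rw [Fin.sum_univ_three]

theorem abs_coord_le (u : V) (i : Fin 3) : |u i| ≤ ‖u‖ := norm_le_pi_norm u i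

theorem sq_coord_le (u : V) (i : Fin 3) : u i ^ 2 ≤ ‖u‖ ^ 2 := by
  rw [← sq_abs]
  exact pow_le_pow_left₀ (abs_nonneg _) (abs_coord_le u i) 2

theorem dot_self_le (u : V) : u ⬝ᵥ u ≤ 3 * ‖u‖ ^ 2 := by
  rw [dot3]
  nlinarith [sq_coord_le u 0, sq_coord_le u 1, sq_coord_le u 2]

theorem dot_le_two {e : V} (he : e ⬝ᵥ e = 1) (u : V) : |e ⬝ᵥ u| ≤ 2 * ‖u‖ := by
  refine abs_le_of_sq_le_sq ?_ (by positivity)
  have h1 : (e ⬝ᵥ u) ^ 2 ≤ (e ⬝ᵥ e) * (u ⬝ᵥ u) := by
    rw [dot3, dot3, dot3]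
    nlinarith [sq_nonneg (e 0 * u 1 - e 1 * u 0), sq_nonneg (e 0 * u 2 - e 2 * u 0),
      sq_nonneg (e 1 * u 2 - e 2 * u 1)]
  rw [he, one_mul] at h1
  have h2 := dot_self_le u
  have h3 := sq_nonneg ‖u‖
  nlinarith

theorem dot_sq_le {e : V} (he : e ⬝ᵥ e = 1) (u : V) : (e ⬝ᵥ u) ^ 2 ≤ u ⬝ᵥ u := by
  have h1 : (e ⬝ᵥ u) ^ 2 ≤ (e ⬝ᵥ e) * (u ⬝ᵥ u) := by
    rw [dot3, dot3, dot3]
    nlinarith [sq_nonneg (e 0 * u 1 - e 1 * u 0), sq_nonneg (e 0 * u 2 - e 2 * u 0),
      sq_nonneg (e 1 * u 2 - e 2 * u 1)]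
  rwa [he, one_mul] at h1

theorem unit_norm_le {e : V} (he : e ⬝ᵥ e = 1) : ‖e‖ ≤ 1 := by
  rw [pi_norm_le_iff_of_nonneg zero_le_one]
  intro i
  rw [Real.norm_eq_abs]
  refine abs_le_of_sq_le_sq ?_ zero_le_one
  rw [dot3] at he
  fin_cases i <;> simp only [Fin.zero_eta, Fin.mk_one, Fin.reduceFinMk] <;>
    nlinarith [sq_nonneg (e 0), sq_nonneg (e 1), sq_nonneg (e 2)]

theorem hgt_add (e x y u : V) : hgt e x (y + u) = hgt e x y + e ⬝ᵥ u := by
  unfold hgt
  rw [show y + u - x = (y - x) + u by abel, dotProduct_add]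

theorem hgt_cont (e x : V) : Continuous (hgt e x) := by
  unfold hgt dotProduct
  fun_prop

theorem pr2_cont (e x : V) : Continuous (pr2 e x) := by
  have h := hgt_cont e x
  unfold pr2 dotProduct
  fun_prop

theorem disc_meas (e x : V) (s w ρ : ℝ) : MeasurableSet (Disc e x s w ρ) := by
  have h1 : IsClosed {y | |hgt e x y - s| ≤ w} :=
    isClosed_le (((hgt_cont e x).sub continuous_const).abs) continuous_const
  have h2 : IsClosed {y | pr2 e x y ≤ ρ ^ 2} := isClosed_le (pr2_cont e x) continuous_const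
  have h3 : Disc e x s w ρ = {y | |hgt e x y - s| ≤ w} ∩ {y | pr2 e x y ≤ ρ ^ 2} := rfl
  rw [h3]
  exact (h1.inter h2).measurableSet

theorem disc_bdd (e x : V) (s w ρ : ℝ) :
    Disc e x s w ρ ⊆ closedBall x (|s| + |w| + |ρ|) := by
  intro y hy
  obtain ⟨h1, h2⟩ := hy
  have h3 : |hgt e x y| ≤ |s| + |w| := by
    have := abs_sub_abs_le_abs_sub (hgt e x y) s
    linarith [le_abs_self w]
  have h4 : (y - x) ⬝ᵥ (y - x) ≤ (|s| + |w| + |ρ|) ^ 2 := by
    unfold pr2 at h2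
    have h5 : hgt e x y ^ 2 ≤ (|s| + |w|) ^ 2 := by
      rw [← sq_abs]
      exact pow_le_pow_left₀ (abs_nonneg _) h3 2
    have h6 : ρ ^ 2 = |ρ| ^ 2 := (sq_abs ρ).symm
    have h7 : 0 ≤ (|s| + |w|) * |ρ| := by positivity
    nlinarith
  rw [mem_closedBall, dist_eq_norm, pi_norm_le_iff_of_nonneg (by positivity)]
  intro i
  rw [Real.norm_eq_abs]
  refine abs_le_of_sq_le_sq ?_ (by positivity)
  refine le_trans ?_ h4
  rw [dot3]
  fin_cases i <;> simp only [Fin.zero_eta, Fin.mk_one, Fin.reduceFinMk] <;>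
    nlinarith [sq_nonneg ((y - x) 0), sq_nonneg ((y - x) 1), sq_nonneg ((y - x) 2)]

/-- a thin slab fills a part of the ball -/
theorem vol_slab (e x y : V) (s w δ : ℝ) (he : e ⬝ᵥ e = 1) (hw : 0 < w) (hwδ : w ≤ δ)
    (hy : |hgt e x y - s| ≤ w) :
    δ ^ 2 * w ≤ (volume (closedBall y (5 * δ) ∩ {z | |hgt e x z - s| ≤ w})).toReal := by
  obtain ⟨E, hE⟩ : ∃ E : Set V, E = closedBall y (5 * δ) ∩ {z | |hgt e x z - s| ≤ w} := ⟨_, rfl⟩
  rw [← hE]
  have hδ : 0 < δ := hw.trans_le hwδ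
  obtain ⟨N, hN⟩ : ∃ N : ℕ, N = ⌈2 * δ / w⌉₊ := ⟨_, rfl⟩
  have hN1 : 2 * δ / w ≤ N := by rw [hN]; exact Nat.le_ceil _
  have hN2 : (N : ℝ) < 2 * δ / w + 1 := by
    rw [hN]
    exact Nat.ceil_lt_add_one (by positivity)
  have hNw : (N : ℝ) * w ≤ 3 * δ := by
    have h1 : (N : ℝ) * w ≤ (2 * δ / w + 1) * w := mul_le_mul_of_nonneg_right hN2.le hw.le
    have h2 : (2 * δ / w + 1) * w = 2 * δ + w := by field_simp
    linarith
  have hEfin : volume E ≠ ⊤ := by
    rw [hE]
    exact ne_top_of_le_ne_top (measure_closedBall_lt_top (x := y) (r := 5 * δ)).ne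
      (measure_mono inter_subset_left)
  have hcov : closedBall y δ ⊆ ⋃ j ∈ Finset.Icc (-(N : ℤ)) N,
      (fun z => z + (-((j : ℝ) * w + (hgt e x y - s))) • e) ⁻¹' E := by
    intro z hz
    rw [mem_closedBall, dist_eq_norm] at hz
    have hm : hgt e x z - hgt e x y = e ⬝ᵥ (z - y) := by
      have := hgt_add e x y (z - y)
      rw [add_sub_cancel] at this
      linarith
    have hm1 : |(hgt e x z - hgt e x y) / w| ≤ N := by
      rw [abs_div, abs_of_pos hw, hm]
      refine le_trans ?_ hN1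
      refine div_le_div_of_nonneg_right ?_ hw.le
      exact (dot_le_two he _).trans (by linarith)
    obtain ⟨j, hj⟩ : ∃ j : ℤ, j = round ((hgt e x z - hgt e x y) / w) := ⟨_, rfl⟩
    have hj1 : |(hgt e x z - hgt e x y) / w - j| ≤ 1 / 2 := by
      rw [hj]
      exact abs_sub_round _
    have hj2 : |(j : ℝ)| ≤ N := by
      have h1 : |(j : ℝ)| < N + 1 := by
        have h2 := abs_sub_abs_le_abs_sub (j : ℝ) ((hgt e x z - hgt e x y) / w)
        rw [abs_sub_comm] at h2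
        linarith
      have h3 : |j| < (N : ℤ) + 1 := by
        have h4 : ((|j| : ℤ) : ℝ) < ((N : ℤ) : ℝ) + 1 := by
          rw [Int.cast_abs]
          exact_mod_cast h1
        exact_mod_cast h4
      have h5 : |j| ≤ (N : ℤ) := by omega
      have h6 : ((|j| : ℤ) : ℝ) ≤ ((N : ℤ) : ℝ) := by exact_mod_cast h5
      rw [Int.cast_abs] at h6
      exact_mod_cast h6
    rw [mem_iUnion₂]
    refine ⟨j, ?_, ?_⟩
    · rw [Finset.mem_Icc]
      have h1 := abs_le.1 hj2
      constructor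
      · exact_mod_cast h1.1
      · exact_mod_cast h1.2
    · rw [mem_preimage, hE]
      constructor
      · rw [mem_closedBall, dist_eq_norm]
        have h1 : z + (-((j : ℝ) * w + (hgt e x y - s))) • e - y =
            (z - y) + (-((j : ℝ) * w + (hgt e x y - s))) • e := by abel
        rw [h1]
        refine (norm_add_le _ _).trans ?_
        rw [norm_smul, Real.norm_eq_abs, abs_neg]
        have h2 : |(j : ℝ) * w + (hgt e x y - s)| ≤ 4 * δ := by
          refine (abs_add_le _ _).trans ?_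
          rw [abs_mul, abs_of_pos hw]
          have := mul_le_mul_of_nonneg_right hj2 hw.le
          linarith
        have h3 : |(j : ℝ) * w + (hgt e x y - s)| * ‖e‖ ≤ 4 * δ * 1 :=
          mul_le_mul h2 (unit_norm_le he) (norm_nonneg _) (by positivity)
        linarith
      · rw [mem_setOf_eq, hgt_add, dotProduct_smul, he, smul_eq_mul, mul_one]
        have h1 : hgt e x z + -((j : ℝ) * w + (hgt e x y - s)) - s =
            ((hgt e x z - hgt e x y) / w - j) * w := by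
          field_simp
          ring
        rw [h1, abs_mul, abs_of_pos hw]
        nlinarith
  have h1 : volume (closedBall y δ) ≤ ((2 * N + 1 : ℕ) : ENNReal) * volume E := by
    refine (measure_mono hcov).trans ((measure_biUnion_finset_le _ _).trans ?_)
    have h2 : ∀ j ∈ Finset.Icc (-(N : ℤ)) N,
        volume ((fun z => z + (-((j : ℝ) * w + (hgt e x y - s))) • e) ⁻¹' E) = volume E :=
      fun j _ => measure_preimage_add_right volume _ E
    rw [Finset.sum_congr rfl h2, Finset.sum_const, Int.card_Icc, nsmul_eq_mul]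
    refine le_of_eq ?_
    congr 2
    omega
  have h3 : (volume (closedBall y δ)).toReal = (2 * δ) ^ 3 := by
    rw [Real.volume_pi_closedBall y hδ.le, ENNReal.toReal_ofReal (by positivity)]
    simp
  have h4 : (2 * δ) ^ 3 ≤ (2 * N + 1) * (volume E).toReal := by
    rw [← h3]
    have h5 := ENNReal.toReal_mono (ENNReal.mul_ne_top (ENNReal.natCast_ne_top _) hEfin) h1
    rw [ENNReal.toReal_mul, ENNReal.toReal_natCast] at h5
    push_cast at h5
    exact h5
  have h6 : (2 * N + 1 : ℝ) * w ≤ 7 * δ := by nlinarith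
  have h7 : (2 * δ) ^ 3 * w ≤ 7 * δ * (volume E).toReal := by
    calc (2 * δ) ^ 3 * w ≤ (2 * N + 1) * (volume E).toReal * w :=
          mul_le_mul_of_nonneg_right h4 hw.le
      _ = (2 * N + 1) * w * (volume E).toReal := by ring
      _ ≤ 7 * δ * (volume E).toReal := mul_le_mul_of_nonneg_right h6 ENNReal.toReal_nonneg
  have h8 : δ * (δ ^ 2 * w) ≤ δ * (volume E).toReal := by
    have h9 : 0 ≤ δ ^ 3 * w := by positivity
    nlinarith
  exact le_of_mul_le_mul_left h8 hδ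

/-! ## The vorticity -/

theorem cur_smooth {v : V → V} (hv : ∀ i, ContDiff ℝ ∞ (fun y => v y i)) (i j : Fin 3) :
    ContDiff ℝ ∞ (cur i j v) := by
  unfold cur
  exact (pd_smooth' (hv j) i).sub (pd_smooth' (hv i) j)

theorem om_eq (v : V → V) (y : V) :
    om v y = √(cur 1 2 v y ^ 2 + cur 2 0 v y ^ 2 + cur 0 1 v y ^ 2) := by
  have h : vort v y = ![cur 1 2 v y, cur 2 0 v y, cur 0 1 v y] := rfl
  unfold om len
  rw [h, dot3]
  congr 1
  simp only [Matrix.cons_val_zero, Matrix.cons_val_one, Matrix.cons_val]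
  ring

theorem om_cont' {v : V → V} (hv : ∀ i, ContDiff ℝ ∞ (fun y => v y i)) : Continuous (om v) := by
  have h : om v = fun y => √(cur 1 2 v y ^ 2 + cur 2 0 v y ^ 2 + cur 0 1 v y ^ 2) := by
    funext y
    exact om_eq v y
  rw [h]
  have h1 := (cur_smooth hv 1 2).continuous
  have h2 := (cur_smooth hv 2 0).continuous
  have h3 := (cur_smooth hv 0 1).continuous
  fun_prop

theorem om_le_sum (v : V → V) (y : V) (b : ℝ) (h1 : |cur 1 2 v y| ≤ b) (h2 : |cur 2 0 v y| ≤ b)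
    (h3 : |cur 0 1 v y| ≤ b) : om v y ≤ 3 * b := by
  have hb : 0 ≤ b := (abs_nonneg _).trans h1
  rw [om_eq]
  refine Real.sqrt_le_iff.2 ⟨by positivity, ?_⟩
  have e1 : cur 1 2 v y ^ 2 ≤ b ^ 2 := by
    rw [← sq_abs]
    exact pow_le_pow_left₀ (abs_nonneg _) h1 2
  have e2 : cur 2 0 v y ^ 2 ≤ b ^ 2 := by
    rw [← sq_abs]
    exact pow_le_pow_left₀ (abs_nonneg _) h2 2
  have e3 : cur 0 1 v y ^ 2 ≤ b ^ 2 := by
    rw [← sq_abs]
    exact pow_le_pow_left₀ (abs_nonneg _) h3 2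
  nlinarith

/-- the three pairs of indices -/
def Idx (i j : Fin 3) : Prop := (i = 1 ∧ j = 2) ∨ (i = 2 ∧ j = 0) ∨ (i = 0 ∧ j = 1)

theorem cur_le_om (v : V → V) (y : V) {i j : Fin 3} (h : Idx i j) : |cur i j v y| ≤ om v y := by
  rw [om_eq]
  refine Real.le_sqrt_of_sq_le ?_
  rw [sq_abs]
  rcases h with ⟨rfl, rfl⟩ | ⟨rfl, rfl⟩ | ⟨rfl, rfl⟩ <;>
    nlinarith [sq_nonneg (cur 1 2 v y), sq_nonneg (cur 2 0 v y), sq_nonneg (cur 0 1 v y)]

theorem om_nonneg' (v : V → V) (y : V) : 0 ≤ om v y := by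
  unfold om len
  exact Real.sqrt_nonneg _

/-- the Lipschitz bound near a good point -/
theorem cur_lip {v : V → V} (hv : ∀ i, ContDiff ℝ ∞ (fun y => v y i)) {c H : ℝ} (hc : 1 ≤ c)
    (hH : 0 < H) {p y z : V} (hG : Gd c H v p) (hy : y ∈ ball p H) (hz : z ∈ ball p H)
    (i j : Fin 3) : |cur i j v z - cur i j v y| ≤ 3 * (c ^ 2 / H ^ 3) * ‖z - y‖ := by
  have hf := cur_smooth hv i j
  have h1 : ∀ q ∈ ball p H, ‖fderiv ℝ (cur i j v) q‖ ≤ 3 * (c ^ 2 / H ^ 3) := by
    intro q hq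
    have h2 := hG q hq 1 i j
    have h3 : SQ 1 (cur i j v) q = ∑ k, pd k (cur i j v) q ^ 2 := rfl
    rw [h3, Fin.sum_univ_three] at h2
    simp only [Nat.factorial_one, Nat.cast_one, mul_one, Nat.reduceAdd] at h2
    have h4 : ∀ k, |pd k (cur i j v) q| ≤ c ^ 2 / H ^ 3 := by
      intro k
      refine abs_le_of_sq_le_sq (le_trans ?_ h2) (by positivity)
      fin_cases k <;> simp only [Fin.zero_eta, Fin.mk_one, Fin.reduceFinMk] <;>
        nlinarith [sq_nonneg (pd 0 (cur i j v) q), sq_nonneg (pd 1 (cur i j v) q),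
          sq_nonneg (pd 2 (cur i j v) q)]
    refine ContinuousLinearMap.opNorm_le_bound _ (by positivity) fun u => ?_
    rw [fderiv_dd]
    unfold dd
    rw [Real.norm_eq_abs]
    refine (Finset.abs_sum_le_sum_abs _ _).trans ?_
    have h5 : ∀ k, |u k * pd k (cur i j v) q| ≤ ‖u‖ * (c ^ 2 / H ^ 3) := by
      intro k
      rw [abs_mul]
      exact mul_le_mul (abs_coord_le u k) (h4 k) (abs_nonneg _) (norm_nonneg _)
    refine (Finset.sum_le_sum fun k _ => h5 k).trans (le_of_eq ?_)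
    rw [Finset.sum_const, Finset.card_univ, Fintype.card_fin, nsmul_eq_mul]
    push_cast
    ring
  have h6 := (convex_ball p H).norm_image_sub_le_of_norm_fderiv_le
    (fun q _ => (hf.differentiable (by simp)) q) h1 hy hz
  rw [Real.norm_eq_abs] at h6
  exact h6

/-- the point at the height `a` and the distance `t` from the axis -/
def pnt (e x d : V) (a t : ℝ) : V := x + a • e + t • d

theorem pnt_hgt {e x d : V} (he : e ⬝ᵥ e = 1) (hed : e ⬝ᵥ d = 0) (a t : ℝ) :
    hgt e x (pnt e x d a t) = a := by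
  unfold hgt pnt
  rw [show x + a • e + t • d - x = a • e + t • d by abel, dotProduct_add, dotProduct_smul,
    dotProduct_smul, he, hed]
  simp

theorem pnt_pr2 {e x d : V} (he : e ⬝ᵥ e = 1) (hed : e ⬝ᵥ d = 0) (hd : d ⬝ᵥ d = 1) (a t : ℝ) :
    pr2 e x (pnt e x d a t) = t ^ 2 := by
  unfold pr2
  rw [pnt_hgt he hed]
  unfold pnt
  rw [show x + a • e + t • d - x = a • e + t • d by abel, dotProduct_add, add_dotProduct,
    add_dotProduct, smul_dotProduct, smul_dotProduct, dotProduct_smul, dotProduct_smul,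
    smul_dotProduct, smul_dotProduct, dotProduct_smul, dotProduct_smul, dotProduct_comm d e, he,
    hed, hd]
  simp only [smul_eq_mul]
  ring

theorem pnt_pr2_near {e x d : V} (he : e ⬝ᵥ e = 1) (hed : e ⬝ᵥ d = 0) (hd : d ⬝ᵥ d = 1)
    (a t : ℝ) (z : V) (ht : 0 ≤ t) :
    |pr2 e x z - t ^ 2| ≤ 4 * t * ‖z - pnt e x d a t‖ + 3 * ‖z - pnt e x d a t‖ ^ 2 := by
  obtain ⟨u, hu⟩ : ∃ u, u = z - pnt e x d a t := ⟨_, rfl⟩
  rw [← hu]
  have h1 : z - x = (a • e + t • d) + u := by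
    rw [hu]
    unfold pnt
    abel
  have h2 : pr2 e x z - t ^ 2 = 2 * t * (d ⬝ᵥ u) + (u ⬝ᵥ u - (e ⬝ᵥ u) ^ 2) := by
    unfold pr2 hgt
    rw [h1]
    simp only [dotProduct_add, add_dotProduct, smul_dotProduct, dotProduct_smul,
      dotProduct_comm d e, he, hed, hd, dotProduct_comm u e, dotProduct_comm u d, smul_eq_mul]
    ring
  have h3 := abs_le.1 (dot_le_two hd u)
  have h4 := dot_sq_le he u
  have h5 := dot_self_le u
  have h6 := sq_nonneg (e ⬝ᵥ u)
  have h7 : |2 * t * (d ⬝ᵥ u)| ≤ 4 * t * ‖u‖ := by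
    rw [abs_mul, abs_of_nonneg (by positivity : (0 : ℝ) ≤ 2 * t)]
    have := mul_le_mul_of_nonneg_left (dot_le_two hd u) (by positivity : (0 : ℝ) ≤ 2 * t)
    linarith
  rw [h2]
  have h8 := abs_le.1 h7
  rw [abs_le]
  constructor <;> nlinarith [sq_nonneg ‖u‖]

/-- a unit vector orthogonal to `e` -/
theorem exists_orth {e : V} (he : e ⬝ᵥ e = 1) : ∃ d : V, d ⬝ᵥ d = 1 ∧ e ⬝ᵥ d = 0 := by
  by_cases h : e 0 ^ 2 + e 1 ^ 2 = 0
  · have h0 : e 0 = 0 := by nlinarith [sq_nonneg (e 0), sq_nonneg (e 1)]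
    refine ⟨![1, 0, 0], ?_, ?_⟩
    · rw [dot3]
      simp
    · rw [dot3]
      simp [h0]
  · have hpos : 0 < e 0 ^ 2 + e 1 ^ 2 := lt_of_le_of_ne (by positivity) (Ne.symm h)
    obtain ⟨q, hq⟩ : ∃ q, q = √(e 0 ^ 2 + e 1 ^ 2) := ⟨_, rfl⟩
    have hq0 : 0 < q := by rw [hq]; exact Real.sqrt_pos.2 hpos
    have hq2 : q ^ 2 = e 0 ^ 2 + e 1 ^ 2 := by rw [hq]; exact Real.sq_sqrt hpos.le
    refine ⟨![-e 1 / q, e 0 / q, 0], ?_, ?_⟩
    · rw [dot3]
      simp only [Matrix.cons_val_zero, Matrix.cons_val_one, Matrix.cons_val]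
      field_simp
      linarith
    · rw [dot3]
      simp only [Matrix.cons_val_zero, Matrix.cons_val_one, Matrix.cons_val]
      field_simp
      ring

/-- every point is of the form `pnt` -/
theorem exists_pnt {e : V} (he : e ⬝ᵥ e = 1) (x y : V) : ∃ (d : V) (t : ℝ), d ⬝ᵥ d = 1 ∧
    e ⬝ᵥ d = 0 ∧ 0 ≤ t ∧ t ^ 2 = pr2 e x y ∧ y = pnt e x d (hgt e x y) t := by
  obtain ⟨u, hu⟩ : ∃ u, u = y - x - hgt e x y • e := ⟨_, rfl⟩
  have heu : e ⬝ᵥ u = 0 := by
    rw [hu, dotProduct_sub, dotProduct_smul, he, smul_eq_mul, mul_one]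
    unfold hgt
    rw [sub_self]
  have huu : u ⬝ᵥ u = pr2 e x y := by
    have h1 : y - x = hgt e x y • e + u := by
      rw [hu]
      abel
    unfold pr2
    rw [h1]
    simp only [dotProduct_add, add_dotProduct, smul_dotProduct, dotProduct_smul,
      dotProduct_comm u e, he, heu, smul_eq_mul]
    ring
  have hu0 : 0 ≤ u ⬝ᵥ u := by
    rw [dot3]
    nlinarith [sq_nonneg (u 0), sq_nonneg (u 1), sq_nonneg (u 2)]
  by_cases h : u ⬝ᵥ u = 0
  · obtain ⟨d, hd, hed⟩ := exists_orth he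
    refine ⟨d, 0, hd, hed, le_refl _, ?_, ?_⟩
    · rw [← huu, h]
      ring
    · have h2 : u = 0 := by
        rw [dot3] at h
        have h0 : u 0 = 0 := by nlinarith [sq_nonneg (u 0), sq_nonneg (u 1), sq_nonneg (u 2)]
        have h1 : u 1 = 0 := by nlinarith [sq_nonneg (u 0), sq_nonneg (u 1), sq_nonneg (u 2)]
        have h2 : u 2 = 0 := by nlinarith [sq_nonneg (u 0), sq_nonneg (u 1), sq_nonneg (u 2)]
        funext k
        fin_cases k
        · exact h0
        · exact h1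
        · exact h2
      rw [hu] at h2
      unfold pnt
      rw [zero_smul, add_zero]
      have h3 : y = x + hgt e x y • e + (y - x - hgt e x y • e) := by abel
      rw [h2, add_zero] at h3
      exact h3
  · have hpos : 0 < u ⬝ᵥ u := lt_of_le_of_ne hu0 (Ne.symm h)
    obtain ⟨q, hq⟩ : ∃ q, q = √(u ⬝ᵥ u) := ⟨_, rfl⟩
    have hq0 : 0 < q := by rw [hq]; exact Real.sqrt_pos.2 hpos
    have hq2 : q ^ 2 = u ⬝ᵥ u := by rw [hq]; exact Real.sq_sqrt hpos.le
    refine ⟨q⁻¹ • u, q, ?_, ?_, hq0.le, ?_, ?_⟩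
    · rw [dotProduct_smul, smul_dotProduct, ← hq2, smul_eq_mul, smul_eq_mul]
      field_simp
    · rw [dotProduct_smul, heu, smul_zero]
    · rw [hq2, huu]
    · unfold pnt
      rw [smul_smul, mul_inv_cancel₀ hq0.ne', one_smul, hu]
      abel

/-- the vorticity is tiny at the points of the thin slab far from the axis -/
theorem outer (c h β : ℝ) (hc : 1 ≤ c) (hh : 0 < h) (hβ : 0 < β) :
    ∃ τ w₀ : ℝ, 0 < τ ∧ 0 < w₀ ∧ w₀ ≤ h / 2 ∧
      ∀ (v : V → V) (x e : V) (r s : ℝ), (∀ i, ContDiff ℝ ∞ (fun y => v y i)) →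
      e ⬝ᵥ e = 1 → 0 < r → (∀ y, hgt e x y = s → pr2 e x y ≤ (r / 2) ^ 2 → Gd c (h * r) v y) →
      ∀ w : ℝ, 0 < w → w ≤ w₀ * r →
      ∫ y in Disc e x s w (r / 2) \ Disc e x s w (r / 4), om v y ≤ τ * w →
      ∀ (d : V) (a t : ℝ), d ⬝ᵥ d = 1 → e ⬝ᵥ d = 0 → |a - s| ≤ w → 3 / 10 * r ≤ t →
        t ≤ 9 / 20 * r → ∀ i j : Fin 3, Idx i j → r ^ 2 * |cur i j v (pnt e x d a t)| ≤ β := by
  obtain ⟨δ₀, hδ₀⟩ : ∃ δ₀ : ℝ, δ₀ = min (1 / 1000) (min (h / 10) (β * h ^ 3 / (30 * c ^ 2))) :=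
    ⟨_, rfl⟩
  have hd1 : δ₀ ≤ 1 / 1000 := by rw [hδ₀]; exact min_le_left _ _
  have hd2 : δ₀ ≤ h / 10 := by
    rw [hδ₀]
    exact (min_le_right _ _).trans (min_le_left _ _)
  have hd3 : δ₀ ≤ β * h ^ 3 / (30 * c ^ 2) := by
    rw [hδ₀]
    exact (min_le_right _ _).trans (min_le_right _ _)
  have hd0 : 0 < δ₀ := by
    rw [hδ₀]
    refine lt_min (by norm_num) (lt_min (by positivity) (by positivity))
  refine ⟨β * δ₀ ^ 2 / 4, δ₀, by positivity, hd0, by linarith, ?_⟩
  intro v x e r s hv he hr hG w hw hwr hint d a t hd hed ha ht1 ht2 i j hij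
  by_contra hcon
  push Not at hcon
  have ht0 : 0 ≤ t := le_trans (by positivity) ht1
  obtain ⟨y, hyd⟩ : ∃ y, y = pnt e x d a t := ⟨_, rfl⟩
  rw [← hyd] at hcon
  obtain ⟨δ, hδ⟩ : ∃ δ, δ = δ₀ * r := ⟨_, rfl⟩
  have hδ0 : 0 < δ := by rw [hδ]; positivity
  have hwδ : w ≤ δ := by rw [hδ]; exact hwr
  have hhy : hgt e x y = a := by rw [hyd]; exact pnt_hgt he hed a t
  obtain ⟨p, hp⟩ : ∃ p, p = pnt e x d s t := ⟨_, rfl⟩
  have hGp : Gd c (h * r) v p := by
    refine hG p ?_ ?_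
    · rw [hp]
      exact pnt_hgt he hed s t
    · rw [hp, pnt_pr2 he hed hd]
      nlinarith
  have hyp : ‖y - p‖ ≤ w := by
    have h1 : y - p = (a - s) • e := by
      rw [hyd, hp]
      unfold pnt
      rw [sub_smul]
      abel
    rw [h1, norm_smul, Real.norm_eq_abs]
    calc |a - s| * ‖e‖ ≤ w * 1 := mul_le_mul ha (unit_norm_le he) (norm_nonneg _) hw.le
      _ = w := mul_one w
  have hδh : 6 * δ < h * r := by
    rw [hδ]
    nlinarith
  have hyb : y ∈ ball p (h * r) := by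
    rw [mem_ball, dist_eq_norm]
    linarith
  obtain ⟨E, hE⟩ : ∃ E : Set V, E = closedBall y (5 * δ) ∩ {z | |hgt e x z - s| ≤ w} := ⟨_, rfl⟩
  have hvol : δ ^ 2 * w ≤ (volume E).toReal := by
    rw [hE]
    exact vol_slab e x y s w δ he hw hwδ (by rw [hhy]; exact ha)
  have hEz : ∀ z ∈ E, β / (2 * r ^ 2) ≤ om v z := by
    intro z hz
    rw [hE] at hz
    have hz1 : ‖z - y‖ ≤ 5 * δ := by
      have := hz.1
      rwa [mem_closedBall, dist_eq_norm] at this
    have hzb : z ∈ ball p (h * r) := by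
      rw [mem_ball, dist_eq_norm]
      have h1 : z - p = (z - y) + (y - p) := by abel
      rw [h1]
      refine lt_of_le_of_lt (norm_add_le _ _) ?_
      linarith
    have h1 := cur_lip hv hc (by positivity) hGp hyb hzb i j
    have h2 : 3 * (c ^ 2 / (h * r) ^ 3) * ‖z - y‖ ≤ β / (2 * r ^ 2) := by
      calc 3 * (c ^ 2 / (h * r) ^ 3) * ‖z - y‖ ≤ 3 * (c ^ 2 / (h * r) ^ 3) * (5 * δ) :=
            mul_le_mul_of_nonneg_left hz1 (by positivity)
        _ = 15 * c ^ 2 / (h ^ 3 * r ^ 2) * δ₀ := by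
            rw [hδ]
            field_simp
            ring
        _ ≤ 15 * c ^ 2 / (h ^ 3 * r ^ 2) * (β * h ^ 3 / (30 * c ^ 2)) :=
            mul_le_mul_of_nonneg_left hd3 (by positivity)
        _ = β / (2 * r ^ 2) := by
            field_simp
            ring
    have h3 : β / r ^ 2 < |cur i j v y| := by
      rw [div_lt_iff₀ (by positivity)]
      linarith
    have h4 := abs_sub_abs_le_abs_sub (cur i j v y) (cur i j v z)
    rw [abs_sub_comm] at h4
    have h5 := cur_le_om v z hij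
    have h6 : β / r ^ 2 = 2 * (β / (2 * r ^ 2)) := by
      field_simp
    linarith
  have hsub : E ⊆ Disc e x s w (r / 2) \ Disc e x s w (r / 4) := by
    intro z hz
    rw [hE] at hz
    have hz1 : ‖z - y‖ ≤ 5 * δ := by
      have := hz.1
      rwa [mem_closedBall, dist_eq_norm] at this
    have h1 := pnt_pr2_near he hed hd a t z ht0 (x := x)
    rw [← hyd] at h1
    have h2 : 4 * t * ‖z - y‖ + 3 * ‖z - y‖ ^ 2 ≤ 1 / 100 * r ^ 2 := by
      have h3 : ‖z - y‖ ≤ 1 / 200 * r := by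
        refine hz1.trans ?_
        rw [hδ]
        nlinarith
      have h4 : 0 ≤ ‖z - y‖ := norm_nonneg _
      have h5 : 4 * t * ‖z - y‖ ≤ 4 * (9 / 20 * r) * (1 / 200 * r) :=
        mul_le_mul (by linarith) h3 h4 (by positivity)
      have h6 : ‖z - y‖ ^ 2 ≤ (1 / 200 * r) ^ 2 := pow_le_pow_left₀ h4 h3 2
      nlinarith [sq_nonneg r]
    have h7 := abs_le.1 (h1.trans h2)
    refine ⟨⟨hz.2, ?_⟩, fun hc' => ?_⟩
    · have h8 : t ^ 2 ≤ (9 / 20 * r) ^ 2 := pow_le_pow_left₀ ht0 ht2 2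
      nlinarith [sq_nonneg r, h7.2]
    · have h8 : (3 / 10 * r) ^ 2 ≤ t ^ 2 := pow_le_pow_left₀ (by positivity) ht1 2
      have h9 : pr2 e x z ≤ (r / 4) ^ 2 := hc'.2
      have h10 : 0 < r ^ 2 := by positivity
      nlinarith [h7.1]
  have hcont := om_cont' hv
  have hInt : IntegrableOn (om v) (Disc e x s w (r / 2) \ Disc e x s w (r / 4)) := by
    refine IntegrableOn.mono_set ?_ (diff_subset.trans (disc_bdd e x s w (r / 2)))
    exact hcont.continuousOn.integrableOn_compact (isCompact_closedBall _ _)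
  have hEm : MeasurableSet E := by
    rw [hE]
    refine isClosed_closedBall.measurableSet.inter ?_
    exact (isClosed_le (((hgt_cont e x).sub continuous_const).abs)
      continuous_const).measurableSet
  have hEfin : volume E ≠ ⊤ := by
    rw [hE]
    exact ne_top_of_le_ne_top (measure_closedBall_lt_top (x := y) (r := 5 * δ)).ne
      (measure_mono inter_subset_left)
  have h1 : ∫ z in E, om v z ≤ ∫ y in Disc e x s w (r / 2) \ Disc e x s w (r / 4), om v y :=
    setIntegral_mono_set hInt (Filter.Eventually.of_forall fun z => om_nonneg' v z)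
      (Filter.Eventually.of_forall hsub)
  have h2 : β / (2 * r ^ 2) * (volume E).toReal ≤ ∫ z in E, om v z := by
    have h3 : ∫ _ in E, β / (2 * r ^ 2) ≤ ∫ z in E, om v z :=
      setIntegral_mono_on (integrableOn_const hEfin) (hInt.mono_set hsub) hEm hEz
    rw [setIntegral_const, smul_eq_mul] at h3
    rw [mul_comm]
    exact h3
  have h3 : β / (2 * r ^ 2) * (δ ^ 2 * w) ≤ β * δ₀ ^ 2 / 4 * w := by
    refine le_trans (mul_le_mul_of_nonneg_left hvol (by positivity)) ?_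
    linarith
  have h4 : β / (2 * r ^ 2) * (δ ^ 2 * w) = β * δ₀ ^ 2 / 2 * w := by
    rw [hδ]
    field_simp
  rw [h4] at h3
  have h5 : 0 < β * δ₀ ^ 2 * w := by positivity
  linarith

/-- **Job CC-ANA.** -/
theorem ana : StmAna := by
  intro c h ε hc hh hh1 hε
  obtain ⟨β, hβ, hcont⟩ := cont (c / h ^ 2) (c / h) (3 / 20) (9 / 20) (by positivity)
    (by positivity) (by norm_num) (by norm_num) (ε / 3) (by positivity)
  obtain ⟨τ, w₀, hτ, hw₀, hw₀h, hout⟩ := outer c h β hc hh hβ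
  refine ⟨τ, w₀, hτ, hw₀, by linarith, ?_⟩
  intro v x e r s hv he hr hG w hw hwr hint y hy
  obtain ⟨hy1, hy2⟩ := hy
  obtain ⟨d, t, hd, hed, ht0, ht2, hyt⟩ := exists_pnt he x y
  obtain ⟨a, ha⟩ : ∃ a, a = hgt e x y := ⟨_, rfl⟩
  rw [← ha] at hy1 hyt
  have htr : t ≤ r / 4 := by
    rw [← ht2] at hy2
    exact le_of_sq_le_sq hy2 (by positivity)
  have hd' : (-d) ⬝ᵥ (-d) = 1 := by rw [neg_dotProduct, dotProduct_neg, neg_neg, hd]
  have hkey : ∀ i j : Fin 3, Idx i j → |cur i j v y| ≤ ε / (3 * r ^ 2) := by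
    intro i j hij
    have hf := cur_smooth hv i j
    have hpt : ∀ T : ℝ, pnt e x d a (9 / 20 * r) + (r * T) • (-d) =
        pnt e x d a (9 / 20 * r - r * T) := by
      intro T
      unfold pnt
      rw [sub_smul, smul_neg]
      abel
    have h1 := hcont (ch (cur i j v) (pnt e x d a (9 / 20 * r)) (-d) r) (ch_chain hf _ _ r)
      (fun n T hT => ?_) (fun T hT => ?_) ((9 / 20 * r - t) / r) ?_
    · unfold ch at h1
      rw [hpt] at h1
      have h2 : 9 / 20 * r - r * ((9 / 20 * r - t) / r) = t := by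
        field_simp
        ring
      rw [h2, ← hyt] at h1
      simp only [Function.iterate_zero, id_eq, zero_add] at h1
      rw [abs_mul, abs_of_pos (by positivity : (0 : ℝ) < r ^ 2)] at h1
      rw [le_div_iff₀ (by positivity)]
      linarith
    · -- the bounds
      have h2 : Gd c (h * r) v (pnt e x d s (9 / 20 * r - r * T)) := by
        refine hG _ (pnt_hgt he hed _ _) ?_
        rw [pnt_pr2 he hed hd]
        have h3 : 0 ≤ r * T := mul_nonneg hr.le hT.1
        have h4 : r * T ≤ r * (9 / 20) := mul_le_mul_of_nonneg_left hT.2 hr.le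
        nlinarith
      have h3 : pnt e x d a (9 / 20 * r - r * T) ∈
          ball (pnt e x d s (9 / 20 * r - r * T)) (h * r) := by
        rw [mem_ball, dist_eq_norm]
        have h4 : pnt e x d a (9 / 20 * r - r * T) - pnt e x d s (9 / 20 * r - r * T) =
            (a - s) • e := by
          unfold pnt
          rw [sub_smul a s e]
          abel
        rw [h4, norm_smul, Real.norm_eq_abs]
        have h5 : |a - s| * ‖e‖ ≤ w * 1 :=
          mul_le_mul hy1 (unit_norm_le he) (norm_nonneg _) hw.le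
        have h6 : w₀ * r ≤ h / 2 * r := mul_le_mul_of_nonneg_right hw₀h hr.le
        have h7 : 0 < h * r := by positivity
        linarith
      have h4 := (dd_iter_sq (-d) hd' n (cur i j v) hf _).trans (h2 _ h3 n i j)
      have h5 : |(dd (-d))^[n] (cur i j v) (pnt e x d a (9 / 20 * r - r * T))| ≤
          c ^ (n + 1) * n.factorial / (h * r) ^ (n + 2) :=
        abs_le_of_sq_le_sq h4 (by positivity)
      unfold ch
      rw [hpt, abs_mul, abs_of_pos (by positivity : (0 : ℝ) < r ^ (n + 2))]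
      refine (mul_le_mul_of_nonneg_left h5 (by positivity)).trans (le_of_eq ?_)
      rw [mul_pow, div_pow]
      field_simp
      ring
    · -- the outer part
      unfold ch
      rw [hpt]
      simp only [Function.iterate_zero, id_eq, zero_add]
      rw [abs_mul, abs_of_pos (by positivity : (0 : ℝ) < r ^ 2)]
      have h3 : r * T ≤ r * (3 / 20) := mul_le_mul_of_nonneg_left hT.2 hr.le
      have h4 : 0 ≤ r * T := mul_nonneg hr.le hT.1
      exact hout v x e r s hv he hr hG w hw hwr hint d a _ hd hed hy1 (by linarith)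
        (by linarith) i j hij
    · constructor
      · exact div_nonneg (by linarith) hr.le
      · rw [div_le_iff₀ hr]
        linarith
  have h1 := om_le_sum v y (ε / (3 * r ^ 2)) (hkey 1 2 (Or.inl ⟨rfl, rfl⟩))
    (hkey 2 0 (Or.inr (Or.inl ⟨rfl, rfl⟩))) (hkey 0 1 (Or.inr (Or.inr ⟨rfl, rfl⟩)))
  refine h1.trans (le_of_eq ?_)
  field_simp

end Pool.Agent.Q128.CC
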